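import Pool.Agent.H5.FL.All4

/-!
`MP_96872c_an`, question Q1 (answer: yes).  Follow-the-leader search minimises the expected time
`E T` over all policies, for every number `N ≥ 2` of boxes, every drift `μ > 0` and every error
level `ε ∈ (0,1)`, when the prior is uniform.

A policy (`Policy`) is a weak solution of the controlled equation, stated as a martingale problem,
in which the explicit posterior is the conditional law of the hidden box given the searcher's
information.  (Follow-the-leader is only a weak solution: for `N = 2` it is Tanaka's equation.)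
Every policy whose searcher sees only the signal (`SPolicy`), in particular every such policy
driven by a Brownian motion, with Itô integrals as limits of integrals of simple processes
(`BPolicy`), is a `Policy`: Bayes' formula is proved for them.
-/

set_option autoImplicit false

open MeasureTheory ProbabilityTheory H5.FL
open scoped NNReal ENNReal

universe u v

namespace Pool.Agent.Results.MP_96872c_an.FollowTheLeader

/-- **Follow-the-leader is optimal under the uniform prior.** -/
theorem result (N : ℕ) (hN : 2 ≤ N) (μ : ℝ) (hμ : 0 < μ) (ε : ℝ) (hε : 0 < ε) (_hε1 : ε < 1) :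
    -- follow-the-leader minimises the expected search time
    (∀ (Ω₀ : Type u) [MeasurableSpace Ω₀] (P₀ : Measure Ω₀) [IsProbabilityMeasure P₀]
      (ftl : Policy N μ Ω₀ P₀), FollowsLeader μ P₀ ftl.X ftl.J →
      ∀ (Ω : Type v) [MeasurableSpace Ω] (P : Measure Ω) [IsProbabilityMeasure P]
        (π : Policy N μ Ω P),
        ∫⁻ ω, searchTime μ ε ftl.X ftl.J ω ∂P₀ ≤ ∫⁻ ω, searchTime μ ε π.X π.J ω ∂P) ∧
    -- the explicit value
    (1 / (N : ℝ) ≤ 1 - ε →
      (∀ (Ω : Type u) [MeasurableSpace Ω] (P : Measure Ω) [IsProbabilityMeasure P]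
        (π : Policy N μ Ω P),
        ENNReal.ofReal (ftlCost N μ ε) ≤ ∫⁻ ω, searchTime μ ε π.X π.J ω ∂P) ∧
      (∀ (Ω : Type u) [MeasurableSpace Ω] (P : Measure Ω) [IsProbabilityMeasure P]
        (ftl : Policy N μ Ω P), FollowsLeader μ P ftl.X ftl.J →
        ∫⁻ ω, searchTime μ ε ftl.X ftl.J ω ∂P = ENNReal.ofReal (ftlCost N μ ε))) ∧
    -- every policy whose searcher sees only the signal is a `Policy` (Bayes' formula holds)
    (∀ (Ω : Type u) [MeasurableSpace Ω] (P : Measure Ω) [IsProbabilityMeasure P]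
      (σ : SPolicy N μ Ω P), ∃ π : Policy N μ Ω P,
        π.jstar = σ.jstar ∧ π.obs = σ.obs ∧ π.full = σ.full ∧ π.X = σ.X ∧ π.J = σ.J) ∧
    (∀ (Ω : Type u) [MeasurableSpace Ω] (P : Measure Ω) [IsProbabilityMeasure P]
      (β : BPolicy N μ Ω P), ∃ π : Policy N μ Ω P,
        π.jstar = β.jstar ∧ π.obs = β.obs ∧ π.full = β.full ∧ π.X = β.X ∧ π.J = β.J) := by
  refine ⟨?_, ?_, ?_, ?_⟩
  · intro Ω₀ _ P₀ _ ftl hftl Ω _ P _ π
    exact main2 p_CLK p_LOW p_UPP p_FLF N hN μ hμ ε hε _hε1 Ω₀ P₀ ftl hftl Ω P π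
  · intro h
    refine ⟨fun Ω _ P _ π => p_LOW N hN ε hε h μ hμ Ω P π, fun Ω _ P _ ftl hftl => ?_⟩
    exact le_antisymm (p_UPP N hN ε hε h μ hμ Ω P ftl (p_FLF N μ Ω P ftl ε hN hftl))
      (p_LOW N hN ε hε h μ hμ Ω P ftl)
  · intro Ω _ P _ σ
    exact ⟨σ.toPolicy (q_BAY N μ Ω P σ), rfl, rfl, rfl, rfl, rfl⟩
  · intro Ω _ P _ β
    exact ⟨(β.toS p_IST).toPolicy (q_BAY N μ Ω P (β.toS p_IST)), rfl, rfl, rfl, rfl, rfl⟩

end Pool.Agent.Results.MP_96872c_an.FollowTheLeader
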